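import Mathlib
import Pool.Agent.H266.FE14

set_option autoImplicit false

open Filter Topology
open scoped ComplexOrder

namespace Pool.Agent.Results.MP_81910f_an.GenericLimits

/-- The tracial states: positive definite class functions with value one at the identity. -/
def Traces (G : Subgroup (Equiv.Perm ℚ)) : Set (G → ℂ) :=
  {ψ : G → ℂ | ψ 1 = 1 ∧ (∀ g h : G, ψ (h * g * h⁻¹) = ψ g) ∧
    ∀ (s : Finset G) (c : G → ℂ), 0 ≤ ∑ i ∈ s, ∑ j ∈ s, star (c j) * c i * ψ (j⁻¹ * i)}

/-- The set of the translations in the group. -/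
def Translations (G : Subgroup (Equiv.Perm ℚ)) : Set G :=
  {g : G | ∃ r : ℚ, ∀ x : ℚ, (g : Equiv.Perm ℚ) x = x + r}

/-- The conditionally finite-dimensional extreme traces: the translates by translations span a
finite-dimensional space. -/
def FiniteExtreme (G : Subgroup (Equiv.Perm ℚ)) : Set (G → ℂ) :=
  {φ | φ ∈ Set.extremePoints ℝ (Traces G) ∧
    FiniteDimensional ℂ (Submodule.span ℂ {F : G → ℂ | ∃ n : G,
      (∃ r : ℚ, ∀ x : ℚ, (n : Equiv.Perm ℚ) x = x + r) ∧ F = fun x => φ (n * x)})}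

/-- The counterexamples to the question: extreme traces which are not conditionally
finite-dimensional and not the regular trace. -/
def Counterexamples (G : Subgroup (Equiv.Perm ℚ)) : Set (G → ℂ) :=
  {φ | φ ∈ Set.extremePoints ℝ (Traces G) ∧
    ¬ FiniteDimensional ℂ (Submodule.span ℂ {F : G → ℂ | ∃ n : G,
      (∃ r : ℚ, ∀ x : ℚ, (n : Equiv.Perm ℚ) x = x + r) ∧ F = fun x => φ (n * x)}) ∧
    φ ≠ Set.indicator ({1} : Set G) (fun _ => (1 : ℂ))}

/-- The pointwise limits of conditionally finite-dimensional extreme traces which are not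
conditionally finite-dimensional extreme traces themselves. -/
def ProperLimits (G : Subgroup (Equiv.Perm ℚ)) : Set (G → ℂ) :=
  closure (FiniteExtreme G) \ FiniteExtreme G

/-- Generic limits of conditionally finite-dimensional extreme traces. -/
theorem result :
    ∀ (s2 s3 t : Equiv.Perm ℚ), (∀ x : ℚ, s2 x = 2 * x) → (∀ x : ℚ, s3 x = 3 * x) →
    (∀ x : ℚ, t x = x + 1) →
    ∀ (G : Subgroup (Equiv.Perm ℚ)), G = Subgroup.closure {s2, s3, t} →
    ∀ u : G, (u : Equiv.Perm ℚ) = t → [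
      -- (1) values near one at the generator of the translations
      ∀ ε : ℝ, 0 < ε → ∃ φ ∈ FiniteExtreme G, φ u ≠ 1 ∧ ‖φ u - 1‖ < ε,
      -- (2) the indicator function of the translations is a limit
      (Translations G).indicator (fun _ => (1 : ℂ)) ∈ closure (FiniteExtreme G),
      -- (3) some limits have a value near the unit circle
      ∀ c : ℝ, c < 1 → ∃ φ ∈ closure (FiniteExtreme G), ∃ n : ℕ, 1 ≤ n ∧ φ (u ^ n) ≠ 1 ∧
        c < ‖φ (u ^ n)‖,
      -- (4) some counterexample in the closed convex hull has values near the unit circle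
      ∃ φ ∈ Counterexamples G, φ ∈ closure (convexHull ℝ (FiniteExtreme G)) ∧
        ∀ c : ℝ, c < 1 → ∃ n : ℕ, 1 ≤ n ∧ c < ‖φ (u ^ n)‖,
      -- (5) some counterexample is a limit and is periodic up to small errors
      ∃ φ ∈ Counterexamples G, φ ∈ closure (FiniteExtreme G) ∧
        ∀ ε : ℝ, 0 < ε → ∃ N : ℕ, 1 ≤ N ∧ ∀ i j : ℕ,
          ‖φ (u ^ (2 ^ (N * i) * 3 ^ (N * j) - 1)) - 1‖ ≤ ε,
      -- (6) the proper limits form a perfect compact set, and generic ones are rigid
      -- counterexamples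
      (ProperLimits G).Nonempty ∧ IsCompact (ProperLimits G) ∧
        (∀ φ : ProperLimits G, (𝓝[≠] φ).NeBot) ∧
        {φ : ProperLimits G | φ.1 ∈ Counterexamples G ∧
          ∀ (ε : ℝ) (L : ℕ), 0 < ε → ∃ n : ℕ, L ≤ n ∧
            ‖φ.1 (u ^ (2 ^ n - 1)) - 1‖ ≤ ε ∧ ‖φ.1 (u ^ (3 ^ n - 1)) - 1‖ ≤ ε} ∈
          residual (ProperLimits G)].TFAE := by
  intro s2 s3 t hs2 hs3 ht G hG u hu
  have hu' : ∀ x : ℚ, (u : Equiv.Perm ℚ) x = x + 1 := fun x => by rw [hu, ht]
  have h := Pool.Agent.H266.FE.main hs2 hs3 ht hG hu'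
  rw [← Pool.Agent.H266.FE.lim_eq hs2 hs3 ht hG hu'] at h
  exact h

end Pool.Agent.Results.MP_81910f_an.GenericLimits
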